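import Mathlib

/-! Loop erasure: a path between distinct points of a metric space contains an arc. -/

set_option autoImplicit false

namespace Pool.Agent.Lib.MP_3a0c72_gt.Nest

open Set Filter Topology unitInterval

variable {K : Type} [MetricSpace K]

def Col (δ : I → K) (A : Set I) : Prop :=
  IsClosed A ∧ 0 ∈ A ∧ 1 ∈ A ∧ ∀ a ∈ A, ∀ b ∈ A, a < b → Disjoint (Ioo a b) A → δ a = δ b

theorem gap_of {A : Set I} (hA : IsClosed A) (h0 : 0 ∈ A) (h1 : 1 ∈ A) {c : I} (hc : c ∉ A) :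
    ∃ a ∈ A, ∃ b ∈ A, a < c ∧ c < b ∧ Disjoint (Ioo a b) A := by
  obtain ⟨a, ha, ha'⟩ := (hA.inter isClosed_Iic).isCompact.exists_isGreatest
    ⟨0, h0, (nonneg' : (0 : I) ≤ c)⟩
  obtain ⟨b, hb, hb'⟩ := (hA.inter isClosed_Ici).isCompact.exists_isLeast
    ⟨1, h1, (le_one' : c ≤ 1)⟩
  refine ⟨a, ha.1, b, hb.1, lt_of_le_of_ne ha.2 fun e => hc (e ▸ ha.1),
    lt_of_le_of_ne hb.2 fun e => hc (e ▸ hb.1), disjoint_left.2 fun t ht htA => ?_⟩
  rcases le_total t c with h | h
  · exact ht.1.not_ge (ha' ⟨htA, h⟩)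
  · exact ht.2.not_ge (hb' ⟨htA, h⟩)

theorem exists_min_col {δ : I → K} (hδ : Continuous δ) : ∃ A, Minimal (Col δ) A := by
  refine (zorn_superset_nonempty {A | Col δ A} (fun c hc hch hne => ?_) univ
    ⟨isClosed_univ, trivial, trivial, fun a _ b _ hab hd => ?_⟩).imp fun A h => h.2
  · refine ⟨⋂₀ c, ⟨isClosed_sInter fun A h => (hc h).1, fun A h => (hc h).2.1,
      fun A h => (hc h).2.2.1, fun a ha b hb hab hd => ?_⟩, fun A h => sInter_subset_of_mem h⟩
    have key : ∀ u v : I, a < u → u ≤ v → v < b →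
        ∃ a' ∈ Ico a u, ∃ b' ∈ Ioc v b, δ a' = δ b' := by
      intro u v hu huv hv
      obtain ⟨A, hA, hAd⟩ : ∃ A ∈ c, Disjoint (Icc u v) A := by
        have := hne.to_subtype
        obtain ⟨A, hA⟩ := isCompact_Icc.elim_directed_family_closed (fun A : c => (A : Set I))
          (fun A => (hc A.2).1) (s := Icc u v)
          (by
            rw [← sInter_eq_iInter]
            exact disjoint_iff_inter_eq_empty.1 (hd.mono_left (Icc_subset_Ioo hu hv)))
          (fun A B => (hch.total A.2 B.2).elim (fun h => ⟨A, subset_rfl, h⟩)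
            fun h => ⟨B, h, subset_rfl⟩)
        exact ⟨A, A.2, disjoint_iff_inter_eq_empty.2 hA⟩
      obtain ⟨h1, h2, h3, h4⟩ := hc hA
      obtain ⟨a', ha', b', hb', k1, k2, k3⟩ := gap_of h1 h2 h3
        (disjoint_left.1 hAd (left_mem_Icc.2 huv))
      refine ⟨a', ⟨le_of_not_gt fun h => disjoint_left.1 k3 ⟨h, hu.trans k2⟩ (ha A hA), k1⟩, b',
        ⟨lt_of_not_ge fun h => disjoint_left.1 hAd ⟨k2.le, h⟩ hb', le_of_not_gt fun h =>
          disjoint_left.1 k3 ⟨k1.trans (huv.trans_lt hv), h⟩ (hb A hA)⟩,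
        h4 _ ha' _ hb' (k1.trans k2) k3⟩
    by_contra hne'
    obtain ⟨U, V, hU, hV, hau, hbv, hUV⟩ := t2_separation hne'
    obtain ⟨m, hm1, hm2⟩ := exists_between hab
    obtain ⟨u, hu, hu'⟩ := (nhdsGE_basis_of_exists_gt ⟨m, hm1⟩).eventually_iff.1
      (nhdsWithin_le_nhds (s := Ici a) ((hU.preimage hδ).mem_nhds hau))
    obtain ⟨v, hv, hv'⟩ := (nhdsLE_basis_of_exists_lt ⟨m, hm2⟩).eventually_iff.1
      (nhdsWithin_le_nhds (s := Iic b) ((hV.preimage hδ).mem_nhds hbv))
    obtain ⟨a', ha', b', hb', e⟩ := key (min u m) (max v m) (lt_min hu hm1)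
      ((min_le_right _ _).trans (le_max_right _ _)) (max_lt hv hm2)
    exact disjoint_left.1 hUV (hu' ⟨ha'.1, ha'.2.trans_le (min_le_left _ _)⟩)
      (e ▸ hv' ⟨(le_max_left _ _).trans_lt hb'.1, hb'.2⟩)
  · obtain ⟨m, hm⟩ := exists_between hab
    exact absurd trivial (disjoint_left.1 hd hm)

/-- A path with the same ends which is constant between two parameters with the same value. -/
theorem exists_mono {δ : I → K} (hδ : Continuous δ) :
    ∃ η : I → K, Continuous η ∧ η 0 = δ 0 ∧ η 1 = δ 1 ∧ range η ⊆ range δ ∧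
      ∀ a b c, a ≤ c → c ≤ b → η a = η b → η c = η a := by
  obtain ⟨A, ⟨hA, h0, h1, hg⟩, hmin⟩ := exists_min_col hδ
  have ex : ∀ t : I, ∃ a, IsGreatest (A ∩ Iic t) a := fun t =>
    (hA.inter isClosed_Iic).isCompact.exists_isGreatest ⟨0, h0, (nonneg' : (0 : I) ≤ t)⟩
  choose m hm using ex
  have mA : ∀ t ∈ A, m t = t := fun t ht => le_antisymm (hm t).1.2 ((hm t).2 ⟨ht, le_refl t⟩)
  have mm : Monotone m := fun s t h => (hm t).2 ⟨(hm s).1.1, (hm s).1.2.trans h⟩
  have mgap : ∀ a ∈ A, ∀ b, Disjoint (Ioo a b) A → ∀ t ∈ Ico a b, m t = a := fun a ha b hd t ht =>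
    le_antisymm (le_of_not_gt fun h => disjoint_left.1 hd ⟨h, (hm t).1.2.trans_lt ht.2⟩ (hm t).1.1)
      ((hm t).2 ⟨ha, ht.1⟩)
  refine ⟨fun t => δ (m t), continuous_iff_continuousAt.2 fun t => ?_, by simp [mA 0 h0],
    by simp [mA 1 h1], by rintro _ ⟨t, rfl⟩; exact ⟨_, rfl⟩, fun a b c hac hcb e => ?_⟩
  · by_cases ht : t ∈ A
    · intro V hV
      rw [mem_map]
      simp only [mA t ht] at hV
      obtain ⟨W, hW, hWo, hWV⟩ : ∃ W ∈ 𝓝 t, W.OrdConnected ∧ W ⊆ δ ⁻¹' V := by
        obtain ⟨u, v, -, h1, h2⟩ := exists_Icc_mem_subset_of_mem_nhds (hδ.continuousAt hV)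
        exact ⟨_, h1, ordConnected_Icc, h2⟩
      filter_upwards [hW] with s hs
      by_cases hsA : s ∈ A
      · simpa [mA s hsA] using hWV hs
      obtain ⟨a, ha, b, hb, k1, k2, k3⟩ := gap_of hA h0 h1 hsA
      have e := mgap a ha b k3 s ⟨k1.le, k2⟩
      rw [mem_preimage, e]
      rcases le_total s t with h | h
      · rw [hg a ha b hb (k1.trans k2) k3]
        exact hWV (hWo.out hs (mem_of_mem_nhds hW) ⟨k2.le, le_of_not_gt fun h' =>
          disjoint_left.1 k3 ⟨k1.trans_le h, h'⟩ ht⟩)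
      · exact hWV (hWo.out (mem_of_mem_nhds hW) hs ⟨le_of_not_gt fun h' =>
          disjoint_left.1 k3 ⟨h', h.trans_lt k2⟩ ht, k1.le⟩)
    · obtain ⟨a, ha, b, hb, k1, k2, k3⟩ := gap_of hA h0 h1 ht
      refine (continuousAt_const (y := δ a)).congr ?_
      filter_upwards [Ioo_mem_nhds k1 k2] with s hs
      rw [mgap a ha b k3 s ⟨hs.1.le, hs.2⟩]
  · have hcol : Col δ (A \ Ioo (m a) (m b)) := by
      refine ⟨hA.sdiff isOpen_Ioo, ⟨h0, fun h => not_lt_bot h.1⟩, ⟨h1, fun h => not_top_lt h.2⟩,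
        fun u hu v hv huv hd => ?_⟩
      by_cases hd' : Disjoint (Ioo u v) A
      · exact hg u hu.1 v hv.1 huv hd'
      obtain ⟨w, hw, hwA⟩ := not_disjoint_iff.1 hd'
      have hw' : w ∈ Ioo (m a) (m b) := by
        by_contra h
        exact disjoint_left.1 hd hw ⟨hwA, h⟩
      have e1 : u = m a := le_antisymm
        (le_of_not_gt fun h => hu.2 ⟨h, hw.1.trans hw'.2⟩)
        (le_of_not_gt fun h => disjoint_left.1 hd ⟨h, hw'.1.trans hw.2⟩
          ⟨(hm a).1.1, fun h => lt_irrefl _ h.1⟩)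
      have e2 : v = m b := le_antisymm
        (le_of_not_gt fun h => disjoint_left.1 hd ⟨hw.1.trans hw'.2, h⟩
          ⟨(hm b).1.1, fun h => lt_irrefl _ h.2⟩)
        (le_of_not_gt fun h => hv.2 ⟨hw'.1.trans hw.2, h⟩)
      rw [e1, e2]
      exact e
    have hsub := hmin hcol sdiff_subset (hm c).1.1
    rcases (mm hac).eq_or_lt with h | h
    · simp only [h]
    rcases (mm hcb).eq_or_lt with h' | h'
    · simp only [h']
      exact e.symm
    exact absurd ⟨h, h'⟩ hsub.2

theorem exists_arc {x y : K} (δ : Path x y) (hxy : x ≠ y) :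
    ∃ γ : Path x y, Function.Injective γ ∧ range γ ⊆ range δ := by
  obtain ⟨η, hη, e0, e1, hr, hm⟩ := exists_mono δ.continuous
  rw [δ.source] at e0
  rw [δ.target] at e1
  set G : I → ℝ → ℝ := fun t r =>
    sInf ((fun s : I => dist (η (projIcc 0 1 zero_le_one r)) (η (min s t))) '' univ) with hG
  have Gc : Continuous (Function.uncurry G) :=
    isCompact_univ.continuous_sInf (f := fun (p : I × ℝ) (s : I) =>
      dist (η (projIcc 0 1 zero_le_one p.2)) (η (min s p.1))) (by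
        have := continuous_projIcc (a := (0 : ℝ)) (b := 1) (h := zero_le_one)
        fun_prop)
  have bdd : ∀ t r, BddBelow
      ((fun s : I => dist (η (projIcc 0 1 zero_le_one r)) (η (min s t))) '' univ) :=
    fun t r => ⟨0, by rintro _ ⟨s, -, rfl⟩; exact dist_nonneg⟩
  have Gle : ∀ t r, ∀ s ≤ t, G t r ≤ dist (η (projIcc 0 1 zero_le_one r)) (η s) :=
    fun t r s hs => csInf_le (bdd t r) ⟨s, trivial, by simp [hs]⟩
  have Gat : ∀ t r, ∃ s ≤ t, G t r = dist (η (projIcc 0 1 zero_le_one r)) (η s) := fun t r => by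
    obtain ⟨s, -, hs⟩ := (isCompact_univ.image (f := fun s : I =>
      dist (η (projIcc 0 1 zero_le_one r)) (η (min s t))) (by fun_prop)).sInf_mem
        (univ_nonempty.image _)
    exact ⟨min s t, min_le_right _ _, hs.symm⟩
  have Ganti : ∀ a b, a ≤ b → ∀ r, G b r ≤ G a r := fun a b h r => by
    obtain ⟨s, hs, e⟩ := Gat a r
    exact e ▸ Gle b r s (hs.trans h)
  set h : I → ℝ := fun t => ∫ r in (0 : ℝ)..1, G t r with hh
  have hc : Continuous h := intervalIntegral.continuous_parametric_intervalIntegral_of_continuous' Gc _ _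
  have Gc' : ∀ t, Continuous (G t) := fun t => Gc.comp (Continuous.prodMk_right t)
  have hanti : ∀ a b, a ≤ b → h b ≤ h a := fun a b hab =>
    intervalIntegral.integral_mono_on zero_le_one ((Gc' b).intervalIntegrable _ _)
      ((Gc' a).intervalIntegrable _ _) fun r _ => Ganti a b hab r
  have hlt : ∀ a b, a ≤ b → η a ≠ η b → h b < h a := fun a b hab hne => by
    refine intervalIntegral.integral_lt_integral_of_continuousOn_of_le_of_exists_lt zero_lt_one
      (Gc' b).continuousOn (Gc' a).continuousOn (fun r _ => Ganti a b hab r) ⟨b, b.2, ?_⟩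
    obtain ⟨s, hs, e⟩ := Gat a b
    have k := Gle b b b le_rfl
    rw [e]
    simp only [projIcc_val, dist_self] at k ⊢
    exact k.trans_lt (dist_pos.2 fun e' => hne ((hm s b a hs hab e'.symm).trans e'.symm))
  have heq : ∀ a b, a ≤ b → η a = η b → h b = h a := fun a b hab e => by
    refine congrArg (fun u : ℝ → ℝ => ∫ r in (0 : ℝ)..1, u r) (funext fun r => ?_)
    refine le_antisymm (Ganti a b hab r) ?_
    obtain ⟨s, hs, e'⟩ := Gat b r
    rw [e']
    rcases le_total s a with k | k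
    · exact Gle a r s k
    · rw [hm a b s k hs e]
      exact Gle a r a le_rfl
  have h01 : h 1 < h 0 := hlt 0 1 nonneg' (by rwa [e0, e1])
  have hp : 0 < h 0 - h 1 := sub_pos.2 h01
  set k : I → I := fun t => ⟨(h 0 - h t) / (h 0 - h 1),
    div_nonneg (sub_nonneg.2 (hanti 0 t nonneg')) hp.le,
    (div_le_one hp).2 (by linarith [hanti t 1 le_one'])⟩ with hk
  have kc : Continuous k := Continuous.subtype_mk (by fun_prop) _
  have k0 : k 0 = 0 := Subtype.ext (by simp [hk])
  have k1 : k 1 = 1 := Subtype.ext (by simp [hk, hp.ne'])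
  have ks : Function.Surjective k := fun t =>
    mem_range_of_exists_le_of_exists_ge kc ⟨0, k0.trans_le nonneg'⟩ ⟨1, le_one'.trans k1.ge⟩
  have kiff : ∀ a b, k a = k b ↔ η a = η b := fun a b => by
    have : k a = k b ↔ h a = h b := by
      rw [Subtype.ext_iff]
      simp only [hk]
      rw [div_left_inj' hp.ne', sub_right_inj]
    rw [this]
    rcases le_total a b with hab | hab
    · exact ⟨fun e => by_contra fun n => (hlt a b hab n).ne' e, fun e => (heq a b hab e).symm⟩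
    · exact ⟨fun e => by_contra fun n => (hlt b a hab (Ne.symm n)).ne e, fun e => heq b a hab e.symm⟩
  have kq : IsQuotientMap k := kc.isClosedMap.isQuotientMap kc ks
  have ee : ∀ t, η (Function.surjInv ks (k t)) = η t := fun t =>
    (kiff _ _).1 (Function.surjInv_eq ks _)
  refine ⟨⟨⟨fun t => η (Function.surjInv ks t), kq.continuous_iff.2 ?_⟩, ?_, ?_⟩, fun s t e => ?_, ?_⟩
  · convert hη using 1
    exact funext ee
  · simpa [k0, e0] using ee 0
  · simpa [k1, e1] using ee 1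
  · rw [← Function.surjInv_eq ks s, ← Function.surjInv_eq ks t]
    exact (kiff _ _).2 e
  · rintro _ ⟨t, rfl⟩
    exact hr ⟨_, rfl⟩

end Pool.Agent.Lib.MP_3a0c72_gt.Nest
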