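import Pool.Agent.Lib.MP_3a0c72_gt.Nest.Erase

/-! Unique arcs, nests of arcs and the gate map onto an arc. -/

set_option autoImplicit false

namespace Pool.Agent.Lib.MP_3a0c72_gt.Nest

open Set Filter Topology unitInterval Function

variable {K : Type} [MetricSpace K]

def Arc (A : Set K) : Prop := ∃ γ : I → K, Continuous γ ∧ Injective γ ∧ range γ = A

def Young (K : Type) [MetricSpace K] : Prop :=
  ∀ A : ℕ → Set K, (∀ n, Arc (A n)) → Monotone A → ∃ B, Arc B ∧ ∀ n, A n ⊆ B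

theorem trans_inj {x y z : K} {a : Path x y} {b : Path y z} (ha : Injective a)
    (hb : Injective b) (h : range a ∩ range b ⊆ {y}) : Injective (a.trans b) := by
  have key : ∀ s t, a s = b t → (t : ℝ) = 0 := fun s t e =>
    congrArg Subtype.val (hb ((h ⟨⟨s, e⟩, t, rfl⟩).trans b.source.symm))
  intro s t e
  rw [Path.trans_apply, Path.trans_apply] at e
  split_ifs at e with h1 h2 h2
  · exact Subtype.ext (by simpa using congrArg Subtype.val (ha e))
  · exact absurd (by linarith [key _ _ e]) h2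
  · exact absurd (by linarith [key _ _ e.symm]) h1
  · exact Subtype.ext (by simpa using congrArg Subtype.val (hb e))

variable {γ : I → K}

theorem sub_path (hc : Continuous γ) (s t : I) :
    ∃ d : Path (γ s) (γ t), range d = γ '' uIcc s t ∧ (Injective γ → s ≠ t → Injective d) := by
  let a : Path (γ 0) (γ 1) := ⟨⟨γ, hc⟩, rfl, rfl⟩
  refine ⟨a.subpath s t, a.range_subpath s t, fun hi hst => ?_⟩
  refine hi.comp fun u v e => Subtype.ext ?_
  have h1 : (1 - u : ℝ) * s + u * t = (1 - v) * s + v * t := congrArg Subtype.val e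
  exact mul_right_cancel₀ (sub_ne_zero.2 (Subtype.coe_ne_coe.2 hst.symm)) (by linarith)

theorem joined_seg (hc : Continuous γ) (s t : I) : JoinedIn (γ '' uIcc s t) (γ s) (γ t) := by
  obtain ⟨d, h, -⟩ := sub_path hc s t
  exact ⟨d, fun u => h ▸ mem_range_self u⟩

theorem seg_subset_aux (hN : Young K) (hc : Continuous γ) (hi : Injective γ) {C : Set K} {a b : I}
    (h : JoinedIn C (γ a) (γ b)) : γ '' Icc a b ⊆ C := by
  obtain ⟨δ, hδ⟩ := h
  rintro _ ⟨s0, hs0, rfl⟩
  suffices γ s0 ∈ range δ by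
    obtain ⟨t, e⟩ := this
    exact e ▸ hδ t
  by_contra hn
  have hD := (isCompact_range δ.continuous).isClosed.preimage hc
  obtain ⟨u, hu, hu'⟩ := (hD.inter isClosed_Iic).isCompact.exists_isGreatest
    ⟨a, ⟨0, δ.source⟩, hs0.1⟩
  obtain ⟨v, hv, hv'⟩ := (hD.inter isClosed_Ici).isCompact.exists_isLeast
    ⟨b, ⟨1, δ.target⟩, hs0.2⟩
  have huv : u < v := (lt_of_le_of_ne hu.2 fun e : u = s0 => hn (e ▸ hu.1)).trans_le hv.2
  have gap : ∀ s, u < s → s < v → γ s ∉ range δ := fun s h1 h2 hs => by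
    rcases le_total s s0 with k | k
    · exact h1.not_ge (hu' ⟨hs, k⟩)
    · exact h2.not_ge (hv' ⟨hs, k⟩)
  obtain ⟨δ', hδ'⟩ : JoinedIn (range δ) (γ v) (γ u) := by
    obtain ⟨p, hp⟩ := hv.1
    obtain ⟨q, hq⟩ := hu.1
    exact hp ▸ hq ▸ (joined_seg δ.continuous p q).mono (image_subset_range _ _)
  obtain ⟨β, βi, hβ⟩ := exists_arc δ' (hi.ne huv.ne')
  have βD : range β ⊆ range δ := hβ.trans (range_subset_iff.2 hδ')
  obtain ⟨w, wm, hw, wt⟩ := exists_seq_strictMono_tendsto' huv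
  obtain ⟨_, ⟨c, cc, ci, rfl⟩, hB⟩ := hN (fun n => range β ∪ γ '' Icc u (w n)) (fun n => by
      obtain ⟨d, h1, h2⟩ := sub_path hc u (w n)
      rw [uIcc_of_le (hw n).1.le] at h1
      refine ⟨β.trans d, (β.trans d).continuous, trans_inj βi (h2 hi (hw n).1.ne) ?_, ?_⟩
      · rw [h1]
        rintro _ ⟨k, s, hs, rfl⟩
        rcases hs.1.eq_or_lt with e | e
        · exact congrArg γ e.symm
        · exact absurd (βD k) (gap s e (hs.2.trans_lt (hw n).2))
      · rw [Path.trans_range, h1])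
    fun m n hmn => union_subset_union_right _ (image_mono (Icc_subset_Icc_right (wm.monotone hmn)))
  have s1 : range β ⊆ range c := subset_union_left.trans (hB 0)
  have s2 : γ '' Icc u v ⊆ range c := by
    rintro _ ⟨s, hs, rfl⟩
    rcases hs.2.eq_or_lt with e | e
    · exact s1 ⟨0, by rw [β.source, e]⟩
    · obtain ⟨n, hn⟩ := (wt.eventually (lt_mem_nhds e)).exists
      exact hB n (Or.inr ⟨s, ⟨hs.1, hn.le⟩, rfl⟩)
  have ind := (cc.isClosedEmbedding ci).isInducing
  have o1 : (c ⁻¹' range β).OrdConnected := (ind.isPreconnected_image.1 (by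
    rw [image_preimage_eq_of_subset s1]
    exact isPreconnected_range β.continuous)).ordConnected
  have o2 : (c ⁻¹' (γ '' Icc u v)).OrdConnected := (ind.isPreconnected_image.1 (by
    rw [image_preimage_eq_of_subset s2]
    exact isPreconnected_Icc.image _ hc.continuousOn)).ordConnected
  obtain ⟨p, hp⟩ := s1 ⟨1, β.target⟩
  obtain ⟨q, hq⟩ := s1 ⟨0, β.source⟩
  have hpq : p ≠ q := fun e => huv.ne (hi (by rw [← hp, e, hq]))
  obtain ⟨m, hm, mp, mq⟩ : ∃ m ∈ uIcc p q, m ≠ p ∧ m ≠ q := by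
    rcases lt_or_gt_of_ne hpq with k | k
    · obtain ⟨m, k1, k2⟩ := exists_between k
      exact ⟨m, mem_uIcc_of_le k1.le k2.le, k1.ne', k2.ne⟩
    · obtain ⟨m, k1, k2⟩ := exists_between k
      exact ⟨m, mem_uIcc_of_ge k1.le k2.le, k2.ne, k1.ne'⟩
  have m1 := o1.uIcc_subset (x := p) (y := q) ⟨1, β.target.trans hp.symm⟩
    ⟨0, β.source.trans hq.symm⟩ hm
  obtain ⟨s, hs, e⟩ := o2.uIcc_subset (x := p) (y := q) ⟨u, left_mem_Icc.2 huv.le, hp.symm⟩
    ⟨v, right_mem_Icc.2 huv.le, hq.symm⟩ hm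
  refine gap s (lt_of_le_of_ne hs.1 fun k => mp (ci ?_)) (lt_of_le_of_ne hs.2 fun k => mq (ci ?_))
    (e ▸ βD m1)
  · rw [← e, hp, k]
  · rw [← e, hq, k]

theorem seg_subset (hN : Young K) (hc : Continuous γ) (hi : Injective γ) {C : Set K} {a b : I}
    (h : JoinedIn C (γ a) (γ b)) : γ '' uIcc a b ⊆ C := by
  rcases le_total a b with k | k
  · rw [uIcc_of_le k]
    exact seg_subset_aux hN hc hi h
  · rw [uIcc_of_ge k]
    exact seg_subset_aux hN hc hi h.symm

theorem chain_bound [TopologicalSpace.SeparableSpace K] (hN : Young K) {𝒜 : Set (Set K)} (ha : ∀ A ∈ 𝒜, Arc A)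
    (hch : IsChain (· ⊆ ·) 𝒜) (hne : 𝒜.Nonempty) : ∃ B, Arc B ∧ ∀ A ∈ 𝒜, A ⊆ B := by
  by_cases hmax : ∃ B ∈ 𝒜, ∀ A ∈ 𝒜, A ⊆ B
  · obtain ⟨B, h1, h2⟩ := hmax
    exact ⟨B, ha B h1, h2⟩
  obtain ⟨T, hT, hTc, hTd⟩ :=
    (TopologicalSpace.IsSeparable.of_separableSpace (⋃₀ 𝒜)).exists_countable_dense_subset
  obtain ⟨A0, hA0⟩ := hne
  have hTn : T.Nonempty := by
    obtain ⟨c, -, -, e⟩ := ha A0 hA0
    exact closure_nonempty_iff.1 ⟨c 0, hTd ⟨A0, hA0, e ▸ mem_range_self 0⟩⟩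
  obtain ⟨d, rfl⟩ := hTc.exists_eq_range hTn
  choose E hE hd using fun n => hT (mem_range_self n)
  have hacc : ∀ n, accumulate E n ∈ 𝒜 := fun n => by
    induction n with
    | zero => simpa using hE 0
    | succ n ih =>
      rw [accumulate_succ]
      rcases hch.total ih (hE (n + 1)) with k | k
      · rw [union_eq_self_of_subset_left k]; exact hE _
      · rw [union_eq_self_of_subset_right k]; exact ih
  obtain ⟨B, hB, hB'⟩ := hN (accumulate E) (fun n => ha _ (hacc n)) monotone_accumulate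
  refine ⟨B, hB, fun A hA => ?_⟩
  by_cases k : ∃ n, A ⊆ E n
  · obtain ⟨n, k⟩ := k
    exact k.trans (subset_accumulate.trans (hB' n))
  refine absurd ⟨A, hA, fun A' hA' => (subset_sUnion_of_mem hA').trans (hTd.trans ?_)⟩ hmax
  obtain ⟨c, cc, -, e⟩ := ha A hA
  refine closure_minimal (range_subset_iff.2 fun n => ?_) (e ▸ (isCompact_range cc).isClosed)
  exact ((hch.total hA (hE n)).resolve_left fun h => k ⟨n, h⟩) (hd n)

theorem first_hit (hc : Continuous γ) {C : Set K} {y : K} {s : I} (h : JoinedIn C y (γ s)) :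
    ∃ r, JoinedIn (C ∩ ((range γ)ᶜ ∪ {γ r})) y (γ r) := by
  obtain ⟨δ, hδ⟩ := h
  obtain ⟨t, ⟨r, e⟩, ht⟩ := ((isCompact_range hc).isClosed.preimage
    δ.continuous).isCompact.exists_isLeast ⟨1, s, δ.target.symm⟩
  have := joined_seg δ.continuous 0 t
  rw [δ.source, ← e, uIcc_of_le nonneg'] at this
  refine ⟨r, this.mono ?_⟩
  rintro _ ⟨u, hu, rfl⟩
  refine ⟨hδ u, ?_⟩
  rcases hu.2.eq_or_lt with k | k
  · exact Or.inr (by rw [k, e]; rfl)
  · exact Or.inl fun h => k.not_ge (ht h)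

/-- The gate map onto an arc. -/
theorem exists_gate [PathConnectedSpace K] (hN : Young K) (hc : Continuous γ) (hi : Injective γ) :
    ∃ r : K → I, (∀ s, r (γ s) = s) ∧ (∀ y y', JoinedIn (range γ)ᶜ y y' → r y = r y') ∧
      (∀ C y s, JoinedIn C y (γ s) → γ (r y) ∈ C) ∧
      ∀ y s s', JoinedIn {γ s}ᶜ (γ s') y ↔ s ∉ uIcc (r y) s' := by
  have ex : ∀ y, ∃ r, JoinedIn ((range γ)ᶜ ∪ {γ r}) y (γ r) := fun y => by
    obtain ⟨r, h⟩ := first_hit hc (joinedIn_univ.2 (PathConnectedSpace.joined y (γ 0)))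
    exact ⟨r, h.mono inter_subset_right⟩
  choose r hr using ex
  have un : ∀ y s, JoinedIn ((range γ)ᶜ ∪ {γ s}) y (γ s) → r y = s := fun y s h => by
    have k := seg_subset hN hc hi (((hr y).symm.mono (subset_union_left (t := {γ s}))).trans
      (h.mono (union_subset_union_left _ subset_union_left)))
    by_contra hne
    obtain ⟨m, hm, mp, mq⟩ : ∃ m ∈ uIcc (r y) s, m ≠ r y ∧ m ≠ s := by
      rcases lt_or_gt_of_ne hne with k | k
      · obtain ⟨m, k1, k2⟩ := exists_between k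
        exact ⟨m, mem_uIcc_of_le k1.le k2.le, k1.ne', k2.ne⟩
      · obtain ⟨m, k1, k2⟩ := exists_between k
        exact ⟨m, mem_uIcc_of_ge k1.le k2.le, k2.ne, k1.ne'⟩
    rcases k ⟨m, hm, rfl⟩ with (k | k) | k
    · exact k ⟨m, rfl⟩
    · exact mp (hi k)
    · exact mq (hi k)
  have g3 : ∀ C y s, JoinedIn C y (γ s) → JoinedIn C y (γ (r y)) := fun C y s h => by
    obtain ⟨t, ht⟩ := first_hit hc h
    rw [un y t (ht.mono inter_subset_right)]
    exact ht.mono inter_subset_left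
  refine ⟨r, fun s => un _ _ (JoinedIn.refl (Or.inr rfl)),
    fun y y' h => un _ _ ((h.mono subset_union_left).trans (hr y')),
    fun C y s h => (g3 C y s h).target_mem, fun y s s' => ⟨fun h hs => ?_, fun h => ?_⟩⟩
  · exact seg_subset hN hc hi ((g3 _ y s' h.symm).symm.trans h.symm) ⟨s, hs, rfl⟩ rfl
  · refine (((hr y).mono ?_).trans ((joined_seg hc (r y) s').mono ?_)).symm
    · rintro z (k | k) e
      · exact k ⟨s, e.symm⟩
      · exact h ((hi (k.symm.trans e)) ▸ left_mem_uIcc)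
    · rintro _ ⟨u, hu, rfl⟩ e
      exact h (hi e ▸ hu)

theorem ev_joined {P : Type} [TopologicalSpace P] [LocallyPathConnectedSpace P] {f : P → K}
    (hf : Continuous f) {V : Set K} (hV : IsOpen V) {p : P} (hp : f p ∈ V) :
    ∀ᶠ q in 𝓝 p, JoinedIn V (f q) (f p) := by
  obtain ⟨N, ⟨hN, hN'⟩, hs⟩ := (path_connected_basis p).mem_iff.1 ((hV.preimage hf).mem_nhds hp)
  filter_upwards [hN] with q hq
  exact ((hN'.joinedIn _ hq _ (mem_of_mem_nhds hN)).map hf).mono (image_subset_iff.2 hs)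

theorem gate_cont {P : Type} [TopologicalSpace P] [LocallyPathConnectedSpace P] {f : P → K}
    (hf : Continuous f) (hc : Continuous γ) (hi : Injective γ) {r : K → I}
    (g1 : ∀ s, r (γ s) = s) (g2 : ∀ y y', JoinedIn (range γ)ᶜ y y' → r y = r y')
    (g3 : ∀ C y s, JoinedIn C y (γ s) → γ (r y) ∈ C) : Continuous fun p => r (f p) := by
  refine continuous_iff_continuousAt.2 fun p => ?_
  by_cases h : f p ∈ range γ
  · obtain ⟨s, e⟩ := h
    intro W hW
    simp only [← e, g1] at hW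
    rw [(hc.isClosedEmbedding hi).isInducing.nhds_eq_comap] at hW
    obtain ⟨V, hV, hVW⟩ := hW
    obtain ⟨V', k1, k2, k3⟩ := mem_nhds_iff.1 hV
    rw [mem_map]
    filter_upwards [ev_joined hf k2 (e ▸ k3)] with q hq
    exact hVW (k1 (g3 _ _ s (e ▸ hq)))
  · refine (continuousAt_const (y := r (f p))).congr ?_
    filter_upwards [ev_joined hf (isCompact_range hc).isClosed.isOpen_compl h] with q hq
    exact (g2 _ _ hq).symm

end Pool.Agent.Lib.MP_3a0c72_gt.Nest
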