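import Pool.Agent.Lib.MP_3a0c72_gt.Nest.Par
import Pool.Agent.Lib.MP_3a0c72_gt.Nest.Gate

/-! The pursuit argument with parities. -/

set_option autoImplicit false
set_option linter.unusedSectionVars false

namespace Pool.Agent.Lib.MP_3a0c72_gt.Nest

open Set Filter Topology unitInterval Function

variable {K : Type} [MetricSpace K] {F : K × I → K × I} {γ : I → K} {r : K → I}

noncomputable def pj (t : ℝ) : I := projIcc 0 1 zero_le_one t

theorem pj_cont : Continuous pj := continuous_projIcc (h := zero_le_one)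

theorem pj_val (s : I) : pj s = s := projIcc_val _ _

noncomputable def ph (F : K × I → K × I) (x : K) (t : ℝ) : ℝ := ((F (x, pj t)).2 : ℝ) - t

noncomputable def fx (F : K × I → K × I) (x : K) (t : ℝ) : K := (F (x, pj t)).1

def Br (x y : K) : Set K := pathComponentIn {x}ᶜ y

def OddG (F : K × I → K × I) (x : K) (B : Set K) : Prop :=
  Par (ph F x) {t | ph F x t = 0 ∧ Br x (fx F x t) = B} 1

theorem mem_Br {x y z : K} : z ∈ Br x y ↔ JoinedIn {x}ᶜ y z := Iff.rfl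

theorem Br_eq {x y z : K} (h : z ≠ x) : Br x z = Br x y ↔ z ∈ Br x y :=
  ⟨fun e => e ▸ mem_pathComponentIn_self h, pathComponentIn_congr⟩

theorem ph_cont {P : Type} [TopologicalSpace P] (hF : Continuous F) {a : P → K} {b : P → ℝ}
    (ha : Continuous a) (hb : Continuous b) : Continuous fun p => ph F (a p) (b p) := by
  have := pj_cont
  unfold ph
  fun_prop

theorem fx_cont {P : Type} [TopologicalSpace P] (hF : Continuous F) {a : P → K} {b : P → ℝ}
    (ha : Continuous a) (hb : Continuous b) : Continuous fun p => fx F (a p) (b p) := by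
  have := pj_cont
  unfold fx
  fun_prop

theorem ph_zero {x : K} {t : ℝ} (h : ph F x t = 0) : t ∈ Icc (0 : ℝ) 1 :=
  sub_eq_zero.1 h ▸ (F (x, pj t)).2.2

theorem fx_ne (hf : ∀ p, F p ≠ p) {x : K} {t : ℝ} (h : ph F x t = 0) : fx F x t ≠ x := fun e =>
  hf (x, pj t) (Prod.ext e (by
    have := pj_val (F (x, pj t)).2
    rw [sub_eq_zero.1 h] at this
    exact this.symm))

theorem exists_oddG (hF : Continuous F) (hf : ∀ p, F p ≠ p) {x : K} {S : Set (Set K)}
    (h : Par (ph F x) {t | ph F x t = 0 ∧ Br x (fx F x t) ∈ S} 1) : ∃ B ∈ S, OddG F x B :=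
  Par.exists_class (ph_cont hF continuous_const continuous_id) (fun _ => ph_zero)
    (fun _ ht => (ev_joined (fx_cont hF continuous_const continuous_id) isOpen_compl_singleton
      (fx_ne hf ht)).mono fun _ hq => pathComponentIn_congr hq.symm) h

theorem OddG.br (hf : ∀ p, F p ≠ p) {x : K} {B : Set K} (h : OddG F x B) :
    ∃ y, y ≠ x ∧ B = Br x y := by
  obtain ⟨t, h1, h2⟩ := Par.nonempty h
  exact ⟨_, fx_ne hf h1, h2.symm⟩

theorem window (hF : Continuous F) (hc : Continuous γ) {a b : I} {Q : I × ℝ → Prop}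
    (hQ : ∀ s ∈ Icc a b, ∀ t, ph F (γ s) t = 0 → (∀ᶠ z in 𝓝 (s, t), z.1 ∈ Icc a b → Q z) ∨
      ∀ᶠ z in 𝓝 (s, t), z.1 ∈ Icc a b → ¬ Q z) {u v : I} (hu : u ∈ Icc a b) (hv : v ∈ Icc a b)
    (h : Par (ph F (γ u)) {t | ph F (γ u) t = 0 ∧ Q (u, t)} 1) :
    Par (ph F (γ v)) {t | ph F (γ v) t = 0 ∧ Q (v, t)} 1 := by
  set π : ℝ → I := fun w => max a (min b (pj w)) with hπ
  have πc : Continuous π := continuous_const.max (continuous_const.min pj_cont)
  have πm : ∀ w, π w ∈ Icc a b := fun w =>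
    ⟨le_max_left _ _, max_le (hu.1.trans hu.2) (min_le_left _ _)⟩
  have πe : ∀ w ∈ Icc a b, π w = w := fun w hw => by
    simp only [hπ, pj_val, min_eq_right hw.2, max_eq_right hw.1]
  have kc : Continuous fun p : ℝ × ℝ => (π p.1, p.2) := by fun_prop
  have := Par.family (Φ := fun p => ph F (γ (π p.1)) p.2)
    (ph_cont hF (by fun_prop) continuous_snd) (fun _ => ph_zero) (Q := fun p => Q (π p.1, p.2))
    (fun p hp => (hQ _ (πm p.1) _ hp).imp
      (fun k => (kc.continuousAt.eventually k).mono fun q hq => hq (πm _))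
      fun k => (kc.continuousAt.eventually k).mono fun q hq => hq (πm _)) u v
  simp only [πe u hu, πe v hv] at this
  exact this h

structure Gate (γ : I → K) (r : K → I) : Prop where
  hc : Continuous γ
  hi : Injective γ
  g1 : ∀ s, r (γ s) = s
  g2 : ∀ y y', JoinedIn (range γ)ᶜ y y' → r y = r y'
  g3 : ∀ C y s, JoinedIn C y (γ s) → γ (r y) ∈ C
  g5 : ∀ y s s', JoinedIn {γ s}ᶜ (γ s') y ↔ s ∉ uIcc (r y) s'

theorem Gate.fwd (G : Gate γ r) {s s' : I} (h : s < s') {y : K} :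
    y ∈ Br (γ s) (γ s') ↔ s < r y := by
  rw [mem_Br, G.g5, mem_uIcc, not_or, not_and, not_and]
  exact ⟨fun k => lt_of_not_ge fun k' => k.1 k' h.le,
    fun k => ⟨fun k' => absurd k k'.not_gt, fun k' => absurd h k'.not_gt⟩⟩

theorem Gate.bwd (G : Gate γ r) {s s' : I} (h : s' < s) {y : K} :
    y ∈ Br (γ s) (γ s') ↔ r y < s := by
  rw [mem_Br, G.g5, mem_uIcc, not_or, not_and, not_and]
  exact ⟨fun k => lt_of_not_ge fun k' => k.2 h.le k',
    fun k => ⟨fun _ k' => absurd h k'.not_gt, fun _ k' => absurd k k'.not_gt⟩⟩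

theorem Gate.odd_iff (G : Gate γ r) (hf : ∀ p, F p ≠ p) {s s' : I} (h : s < s') :
    OddG F (γ s) (Br (γ s) (γ s')) ↔
      Par (ph F (γ s)) {t | ph F (γ s) t = 0 ∧ s < r (fx F (γ s) t)} 1 := by
  unfold OddG
  rw [show {t | ph F (γ s) t = 0 ∧ Br (γ s) (fx F (γ s) t) = Br (γ s) (γ s')} =
    {t | ph F (γ s) t = 0 ∧ s < r (fx F (γ s) t)} from
      Set.ext fun t => and_congr_right fun ht => (Br_eq (fx_ne hf ht)).trans (G.fwd h)]

theorem Gate.tri (G : Gate γ r) (hF : Continuous F) (hf : ∀ p, F p ≠ p) {s : I} {t : ℝ}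
    (h : ph F (γ s) t = 0) :
    (∀ᶠ z : I × ℝ in 𝓝 (s, t), z.1 < r (fx F (γ z.1) z.2)) ∨
      (∀ᶠ z : I × ℝ in 𝓝 (s, t), r (fx F (γ z.1) z.2) < z.1 ∧ r (fx F (γ z.1) z.2) < s) ∨
      ∀ᶠ z : I × ℝ in 𝓝 (s, t), r (fx F (γ z.1) z.2) = s := by
  have c1 : Continuous fun p : ℝ × ℝ => fx F (γ (pj p.1)) p.2 :=
    fx_cont hF (G.hc.comp (pj_cont.comp continuous_fst)) continuous_snd
  have kc : Continuous fun z : I × ℝ => ((z.1 : ℝ), z.2) := by fun_prop
  have c2 : Continuous fun z : I × ℝ => r (fx F (γ z.1) z.2) := by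
    simpa [Function.comp_def, pj_val] using (gate_cont c1 G.hc G.hi G.g1 G.g2 G.g3).comp kc
  rcases lt_trichotomy s (r (fx F (γ s) t)) with k | k | k
  · exact Or.inl (continuousAt_fst.eventually_lt c2.continuousAt k)
  · refine Or.inr (Or.inr ?_)
    have hn : fx F (γ (pj (s : ℝ))) t ∈ (range γ)ᶜ := by
      rw [pj_val]
      rintro ⟨u, e⟩
      rw [← e, G.g1] at k
      exact fx_ne hf h (by rw [← e, k])
    have := (kc.continuousAt (x := (s, t))).eventually (ev_joined (p := ((s : ℝ), t)) c1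
      (isCompact_range G.hc).isClosed.isOpen_compl hn)
    filter_upwards [this] with z hz
    simp only [pj_val] at hz
    exact (G.g2 _ _ hz).trans k.symm
  · exact Or.inr (Or.inl ((c2.continuousAt.eventually_lt continuousAt_fst k).and
      (c2.continuousAt.eventually_lt continuousAt_const k)))

theorem tube (hF : Continuous F) (hc : Continuous γ) {s0 : I} {Q W : I × ℝ → Prop}
    (h : ∀ t, ph F (γ s0) t = 0 → (∀ᶠ z in 𝓝 (s0, t), W z → Q z) ∨
      ∀ᶠ z in 𝓝 (s0, t), W z → ¬ Q z) :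
    ∀ᶠ s in 𝓝 s0, ∀ t, ph F (γ s) t = 0 → (∀ᶠ z in 𝓝 (s, t), W z → Q z) ∨
      ∀ᶠ z in 𝓝 (s, t), W z → ¬ Q z := by
  have := (isCompact_Icc (a := (0 : ℝ)) (b := 1)).eventually_forall_of_forall_eventually
    (x₀ := s0) (P := fun s t => ph F (γ s) t = 0 → (∀ᶠ z in 𝓝 (s, t), W z → Q z) ∨
      ∀ᶠ z in 𝓝 (s, t), W z → ¬ Q z) fun t _ => by
    by_cases k : ph F (γ s0) t = 0
    · rcases h t k with k | k
      · exact k.eventually_nhds.mono fun z hz _ => Or.inl hz
      · exact k.eventually_nhds.mono fun z hz _ => Or.inr hz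
    · exact ((ph_cont hF (hc.comp continuous_fst) continuous_snd).continuousAt.eventually_ne
        (x := (s0, t)) k).mono fun z hz e => absurd e hz
  exact this.mono fun s hs t ht => hs t (ph_zero ht) ht

theorem Gate.right (G : Gate γ r) (hF : Continuous F) (hf : ∀ p, F p ≠ p) {s0 : I} (h1 : s0 < 1)
    (h : Par (ph F (γ s0)) {t | ph F (γ s0) t = 0 ∧ s0 < r (fx F (γ s0) t)} 1) :
    ∃ s, s0 < s ∧ s < 1 ∧ Par (ph F (γ s)) {t | ph F (γ s) t = 0 ∧ s < r (fx F (γ s) t)} 1 := by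
  obtain ⟨u, hu, hu'⟩ := exists_Ico_subset_of_mem_nhds (tube hF G.hc (s0 := s0)
    (Q := fun z => z.1 < r (fx F (γ z.1) z.2)) (W := fun z => s0 ≤ z.1) fun t ht => by
      rcases G.tri hF hf ht with k | k | k
      · exact Or.inl (k.mono fun z hz _ => hz)
      · exact Or.inr (k.mono fun z hz _ => hz.1.not_gt)
      · exact Or.inr (k.mono fun z hz hw => by rw [hz]; exact hw.not_gt)) ⟨1, h1⟩
  obtain ⟨s, k1, k2⟩ := exists_between hu
  refine ⟨s, k1, k2.trans_le le_one', window hF G.hc (a := s0) (b := s)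
    (Q := fun z => z.1 < r (fx F (γ z.1) z.2)) (fun w hw t ht => ?_)
    (left_mem_Icc.2 k1.le) (right_mem_Icc.2 k1.le) h⟩
  exact (hu' ⟨hw.1, hw.2.trans_lt k2⟩ t ht).imp (fun k => k.mono fun z hz e => hz e.1)
    fun k => k.mono fun z hz e => hz e.1

theorem Gate.left (G : Gate γ r) (hF : Continuous F) (hf : ∀ p, F p ≠ p) {s0 l : I} (h1 : l < s0) :
    ∃ u < s0, ∀ s, u < s → s < s0 →
      Par (ph F (γ s)) {t | ph F (γ s) t = 0 ∧ s < r (fx F (γ s) t)} 1 →
      Par (ph F (γ s0)) {t | ph F (γ s0) t = 0 ∧ s0 ≤ r (fx F (γ s0) t)} 1 := by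
  obtain ⟨u, hu, hu'⟩ := exists_Ioc_subset_of_mem_nhds (tube hF G.hc (s0 := s0)
    (Q := fun z => z.1 < r (fx F (γ z.1) z.2) ∨ s0 ≤ r (fx F (γ z.1) z.2))
    (W := fun z => z.1 ≤ s0) fun t ht => by
      rcases G.tri hF hf ht with k | k | k
      · exact Or.inl (k.mono fun z hz _ => Or.inl hz)
      · exact Or.inr (k.mono fun z hz _ e => e.elim hz.1.not_gt hz.2.not_ge)
      · exact Or.inl (k.mono fun z hz _ => Or.inr hz.ge)) ⟨l, h1⟩
  refine ⟨u, hu, fun s k1 k2 h => ?_⟩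
  have := window hF G.hc (a := s) (b := s0)
    (Q := fun z => z.1 < r (fx F (γ z.1) z.2) ∨ s0 ≤ r (fx F (γ z.1) z.2))
    (fun w hw t ht => (hu' ⟨k1.trans_le hw.1, hw.2⟩ t ht).imp
      (fun k => k.mono fun z hz e => hz e.2) fun k => k.mono fun z hz e => hz e.2)
    (left_mem_Icc.2 k2.le) (right_mem_Icc.2 k2.le)
    (by
      convert h using 4 with t
      exact or_iff_left_of_imp k2.trans_le)
  convert this using 4 with t
  exact (or_iff_right_of_imp le_of_lt).symm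

theorem gate [PathConnectedSpace K] (hN : Young K) (hc : Continuous γ) (hi : Injective γ) :
    ∃ r, Gate γ r := by
  obtain ⟨r, h1, h2, h3, h4⟩ := exists_gate hN hc hi
  exact ⟨r, hc, hi, h1, h2, h3, h4⟩

theorem arc_of_ne [PathConnectedSpace K] {x y : K} (h : x ≠ y) : ∃ d : Path x y, Injective d :=
  (exists_arc (PathConnectedSpace.somePath x y) h).imp fun _ k => k.1

/-- An odd germ has a strictly later odd germ. -/
theorem step [PathConnectedSpace K] (hN : Young K) (hF : Continuous F) (hf : ∀ p, F p ≠ p)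
    {x : K} {B : Set K} (h : OddG F x B) : ∃ y B', OddG F y B' ∧ y ∈ B ∧ x ∉ B' := by
  obtain ⟨y, hy, rfl⟩ := h.br hf
  obtain ⟨d, dc, di, rfl, rfl⟩ : ∃ d : I → K, Continuous d ∧ Injective d ∧ d 0 = x ∧ d 1 = y := by
    obtain ⟨d, di⟩ := arc_of_ne hy.symm
    exact ⟨d, d.continuous, di, d.source, d.target⟩
  obtain ⟨r, G⟩ := gate hN dc di
  obtain ⟨s, k1, k2, k⟩ := G.right hF hf zero_lt_one ((G.odd_iff hf zero_lt_one).1 h)
  refine ⟨d s, _, (G.odd_iff hf k2).2 k, (G.fwd zero_lt_one).2 (by rwa [G.g1]), fun e => ?_⟩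
  have := (G.fwd k2).1 e
  rw [G.g1] at this
  exact k1.not_gt this

theorem Br_sub [PathConnectedSpace K] {x y u v : K} (h1 : y ∈ Br x u) (h2 : x ∉ Br y v) :
    Br y v ⊆ Br x u := fun w hw => by
  obtain ⟨d, di⟩ := arc_of_ne (show w ≠ y from hw.target_mem)
  refine JoinedIn.trans h1 (JoinedIn.symm ⟨d, fun t e => ?_⟩)
  by_cases ht : t = 1
  · exact h1.target_mem (by rw [← d.target, ← ht]; exact e)
  refine h2 (JoinedIn.trans hw ?_)
  have := joined_seg d.continuous 0 t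
  rw [d.source, show d t = x from e, uIcc_of_le nonneg'] at this
  refine this.mono ?_
  rintro _ ⟨s, hs, rfl⟩ e'
  exact ht (le_antisymm le_one' (di (e'.trans d.target.symm) ▸ hs.2))

def Le (a b : K × Set K) : Prop := a = b ∨ (b.1 ∈ a.2 ∧ a.1 ∉ b.2)

theorem bound [PathConnectedSpace K] (hN : Young K) (hF : Continuous F) (hf : ∀ p, F p ≠ p)
    (hc : Continuous γ) (hi : Injective γ) {c : Set (K × Set K)} (hch : IsChain Le c)
    (hne : c.Nonempty) {s0 : I} (hodd : ∀ a ∈ c, OddG F a.1 a.2 ∧ γ s0 ∉ a.2)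
    (hs : ∀ a ∈ c, ∃ s, s0 < s ∧ γ s = a.1) :
    ∃ b : K × Set K, OddG F b.1 b.2 ∧ γ s0 ∉ b.2 ∧ b.1 ≠ γ s0 ∧ ∀ a ∈ c, Le a b := by
  obtain ⟨r, G⟩ := gate hN hc hi
  have e1 : ∀ a ∈ c, s0 < r a.1 ∧ γ (r a.1) = a.1 := fun a ha => by
    obtain ⟨s, h, e⟩ := hs a ha
    rw [← e, G.g1]
    exact ⟨h, rfl⟩
  have mono : ∀ a ∈ c, ∀ b ∈ c, b.1 ∈ a.2 → r a.1 < r b.1 := fun a ha b hb h => by
    obtain ⟨y, hy, e⟩ := (hodd a ha).1.br hf
    by_contra hn
    have hne' : r b.1 ≠ r a.1 := fun k => by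
      rw [e] at h
      exact h.target_mem (by rw [← (e1 b hb).2, k, (e1 a ha).2]; rfl)
    have k : b.1 ∈ Br (γ (r a.1)) (γ s0) :=
      (G.bwd (e1 a ha).1).2 (lt_of_le_of_ne (not_lt.1 hn) hne')
    rw [(e1 a ha).2] at k
    refine (hodd a ha).2 ?_
    rw [e] at h ⊢
    exact JoinedIn.trans h k.symm
  by_cases hmax : ∃ b ∈ c, ∀ a ∈ c, r a.1 ≤ r b.1
  · obtain ⟨b, hb, h⟩ := hmax
    refine ⟨b, (hodd b hb).1, (hodd b hb).2, fun e => (e1 b hb).1.ne' (by rw [e, G.g1]),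
      fun a ha => ?_⟩
    by_cases e : a = b
    · exact Or.inl e
    rcases hch ha hb e with k | k
    · exact k
    · exact absurd (mono b hb a ha (k.resolve_left (Ne.symm e)).1) (h a ha).not_gt
  push Not at hmax
  have fw : ∀ a ∈ c, ∀ s, r a.1 < s → a.2 = Br (γ (r a.1)) (γ s) := fun a ha s h => by
    obtain ⟨b, hb, k⟩ := hmax a ha
    have hab : a ≠ b := fun e => k.ne (by rw [e])
    have hm : b.1 ∈ a.2 := by
      rcases hch ha hb hab with k' | k'
      · exact (k'.resolve_left hab).1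
      · exact absurd (mono b hb a ha (k'.resolve_left hab.symm).1) k.not_gt
    obtain ⟨y, hy, e⟩ := (hodd a ha).1.br hf
    have k2 : b.1 ∈ Br (γ (r a.1)) (γ s) := (G.fwd h).2 k
    rw [(e1 a ha).2] at k2 ⊢
    rw [e] at hm ⊢
    exact (pathComponentIn_congr hm).symm.trans (pathComponentIn_congr k2)
  set m : I := sSup ((fun a : K × Set K => r a.1) '' c) with hm
  have lt : ∀ a ∈ c, r a.1 < m := fun a ha => by
    obtain ⟨b, hb, k⟩ := hmax a ha
    exact k.trans_le (le_sSup ⟨b, hb, rfl⟩)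
  obtain ⟨a0, ha0⟩ := hne
  have h0m : s0 < m := (e1 a0 ha0).1.trans (lt a0 ha0)
  obtain ⟨u, hu, hu'⟩ := G.left hF hf h0m
  obtain ⟨_, ⟨a, ha, rfl⟩, k⟩ := lt_sSup_iff.1 hu
  have o1 : OddG F (γ (r a.1)) (Br (γ (r a.1)) (γ m)) := by
    rw [← fw a ha m (lt a ha), (e1 a ha).2]
    exact (hodd a ha).1
  have o2 := hu' _ k (lt a ha) ((G.odd_iff hf (lt a ha)).1 o1)
  obtain ⟨B, hB, oB⟩ := exists_oddG hF hf (x := γ m) (S := {B | γ s0 ∉ B}) (by
    convert o2 using 3 with t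
    refine and_congr_right fun _ => ?_
    rw [← not_lt, ← G.bwd h0m]
    exact not_congr ⟨JoinedIn.symm, JoinedIn.symm⟩)
  refine ⟨(γ m, B), oB, hB, hi.ne h0m.ne', fun b hb => Or.inr ⟨?_, fun e => hB ?_⟩⟩
  · rw [fw b hb m (lt b hb)]
    exact mem_pathComponentIn_self (hi.ne (lt b hb).ne')
  · obtain ⟨y, hy, rfl⟩ := oB.br hf
    exact JoinedIn.trans e ((G.bwd h0m).2 (lt b hb)).symm

theorem main [TopologicalSpace.SeparableSpace K] [PathConnectedSpace K] (hN : Young K) (hF : Continuous F) :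
    ∃ p, F p = p := by
  by_contra hf
  push Not at hf
  obtain ⟨x0⟩ : Nonempty K := inferInstance
  obtain ⟨B0, -, o0⟩ := exists_oddG hF hf (x := x0) (S := univ) (by
    simpa using Par.full (φ := ph F x0) (ph_cont hF continuous_const continuous_id)
      (by unfold ph; linarith [(F (x0, pj (-1))).2.2.1])
      (by unfold ph; linarith [(F (x0, pj 2)).2.2.2]))
  obtain ⟨x1, B1, o1, h1, h1'⟩ := step hN hF hf o0
  have n1 : x1 ≠ x0 := by
    obtain ⟨y, -, rfl⟩ := o0.br hf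
    exact h1.target_mem
  have sub : ∀ a b : K × Set K, OddG F a.1 a.2 → OddG F b.1 b.2 → b.1 ∈ a.2 → a.1 ∉ b.2 →
      b.2 ⊆ a.2 := fun a b oa ob k1 k2 => by
    obtain ⟨u, -, e⟩ := oa.br hf
    obtain ⟨v, -, e'⟩ := ob.br hf
    rw [e] at k1 ⊢
    rw [e'] at k2 ⊢
    exact Br_sub k1 k2
  refine (exists_maximal_of_chains_bounded
    (α := {a : K × Set K // OddG F a.1 a.2 ∧ x0 ∉ a.2 ∧ a.1 ≠ x0})
    (r := fun a b => Le a.1 b.1) (fun c hc => ?_) (fun {a b c} k1 k2 => ?_)).elim fun m hm => ?_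
  rotate_right
  · obtain ⟨y, B, o, k1, k2⟩ := step hN hF hf m.2.1
    have s1 := sub m.1 (y, B) m.2.1 o k1 k2
    rcases hm ⟨(y, B), o, fun e => m.2.2.1 (s1 e), fun e => m.2.2.1 (e ▸ k1)⟩
      (Or.inr ⟨k1, k2⟩) with e | e
    · obtain ⟨u, -, e'⟩ := m.2.1.br hf
      rw [e'] at k1
      exact k1.target_mem (congrArg Prod.fst e)
    · exact k2 e.1
  · rcases c.eq_empty_or_nonempty with rfl | hne
    · exact ⟨⟨(x1, B1), o1, h1', n1⟩, fun _ h => h.elim⟩
    choose d di using fun a : c => arc_of_ne a.1.2.2.2.symm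
    have mem : ∀ (a b : c) (C : Set K), b.1.1.1 ∈ a.1.1.2 → JoinedIn C x0 b.1.1.1 →
        a.1.1.1 ∈ C := fun a b C k hC => by
      by_contra hn
      obtain ⟨u, -, e⟩ := a.1.2.1.br hf
      refine a.1.2.2.1 ?_
      rw [e] at k ⊢
      exact JoinedIn.trans k (hC.symm.mono fun z hz e' => hn (e' ▸ hz))
    have dsub : ∀ a b : c, b.1.1.1 ∈ a.1.1.2 → range (d a) ⊆ range (d b) := fun a b k => by
      obtain ⟨t, ht⟩ := mem a b _ k ⟨d b, mem_range_self⟩
      have j := (joined_seg (d b).continuous 0 t).mono (image_subset_range _ _)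
      rw [ht, (d b).source] at j
      have := seg_subset hN (d a).continuous (di a) (a := 0) (b := 1) (C := range (d b))
        (by rw [(d a).source, (d a).target]; exact j)
      rwa [uIcc_of_le nonneg', show Icc (0 : I) 1 = univ from Icc_bot_top, image_univ] at this
    have tot : ∀ a b : c, a = b ∨ b.1.1.1 ∈ a.1.1.2 ∨ a.1.1.1 ∈ b.1.1.2 := fun a b => by
      by_cases e : a = b
      · exact Or.inl e
      have e' : a.1.1 ≠ b.1.1 := fun k => e (Subtype.ext (Subtype.ext k))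
      exact Or.inr ((hc a.2 b.2 fun k => e (Subtype.ext k)).imp
        (fun k => (k.resolve_left e').1) fun k => (k.resolve_left e'.symm).1)
    have := hne.to_subtype
    obtain ⟨_, ⟨g, gc, gi, rfl⟩, hg⟩ := chain_bound hN (𝒜 := range fun a => range (d a))
      (by rintro _ ⟨a, rfl⟩; exact ⟨_, (d a).continuous, di a, rfl⟩)
      (by
        rintro _ ⟨a, rfl⟩ _ ⟨b, rfl⟩ -
        rcases tot a b with rfl | k | k
        exacts [Or.inl subset_rfl, Or.inl (dsub a b k), Or.inr (dsub b a k)]) (range_nonempty _)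
    obtain ⟨a0⟩ := this
    obtain ⟨s0, e0⟩ := hg _ ⟨a0, rfl⟩ ⟨0, (d a0).source⟩
    choose s hs using fun a : c => hg _ ⟨a, rfl⟩ ⟨1, (d a).target⟩
    have sn : ∀ a, s a ≠ s0 := fun a e => a.1.2.2.2 (by rw [← hs, e, e0])
    have sm : ∀ a b : c, b.1.1.1 ∈ a.1.1.2 → s a ∈ uIcc s0 (s b) := fun a b k => by
      obtain ⟨t, ht, e⟩ := mem a b _ k (e0 ▸ hs b ▸ joined_seg gc s0 (s b))
      exact gi (e.trans (hs a).symm) ▸ ht
    have fin : ∀ (g : I → K) (s0 : I), Continuous g → Injective g → g s0 = x0 →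
        (∀ a : c, ∃ s, s0 < s ∧ g s = a.1.1.1) →
        ∃ ub : {a : K × Set K // OddG F a.1 a.2 ∧ x0 ∉ a.2 ∧ a.1 ≠ x0},
          ∀ a ∈ c, Le a.1 ub.1 := fun g s0 gc gi e0 h => by
      obtain ⟨b, b1, b2, b3, b4⟩ := bound hN hF hf gc gi (c := Subtype.val '' c) (s0 := s0)
        (by
          rintro _ ⟨a, ha, rfl⟩ _ ⟨b, hb, rfl⟩ k
          exact hc ha hb fun e => k (congrArg _ e)) (hne.image _)
        (by rintro _ ⟨a, -, rfl⟩; exact ⟨a.2.1, e0 ▸ a.2.2.1⟩)
        (by rintro _ ⟨a, ha, rfl⟩; exact h ⟨a, ha⟩)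
      exact ⟨⟨b, b1, e0 ▸ b2, e0 ▸ b3⟩, fun a ha => b4 _ ⟨a, ha, rfl⟩⟩
    rcases lt_or_gt_of_ne (sn a0) with k | k
    · refine fin (fun t => g (σ t)) (σ s0) (gc.comp continuous_symm)
        (gi.comp symm_bijective.injective) (by simpa using e0) fun a => ⟨σ (s a), ?_, by simp [hs]⟩
      refine symm_lt_symm.2 (lt_of_le_of_ne ?_ (sn a))
      rcases tot a a0 with rfl | h | h
      · exact k.le
      · exact (uIcc_of_ge k.le ▸ sm a a0 h).2
      · exact le_of_not_gt fun h' => k.not_ge (uIcc_of_le h'.le ▸ sm a0 a h).1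
    · refine fin g s0 gc gi e0 fun a => ⟨s a, lt_of_le_of_ne ?_ (sn a).symm, hs a⟩
      rcases tot a a0 with rfl | h | h
      · exact k.le
      · exact (uIcc_of_le k.le ▸ sm a a0 h).1
      · exact le_of_not_gt fun h' => k.not_ge (uIcc_of_ge h'.le ▸ sm a0 a h).2
  · rcases k1 with e | k1
    · exact e ▸ k2
    rcases k2 with e | k2
    · exact e ▸ Or.inr k1
    exact Or.inr ⟨sub _ _ a.2.1 b.2.1 k1.1 k1.2 k2.1,
      fun e => k1.2 (sub _ _ b.2.1 c.2.1 k2.1 k2.2 e)⟩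

/-- The pursuit runs inside the path component of a fixed point of one level map. -/
theorem main2 [TopologicalSpace.SeparableSpace K] (hN : Young K)
    (hK : ∀ f : K → K, Continuous f → ∃ x, f x = x) (hF : Continuous F) : ∃ p, F p = p := by
  obtain ⟨x0, h0⟩ := hK (fun x => (F (x, 0)).1) (by fun_prop)
  have := UniformSpace.secondCountable_of_separable K
  have := isPathConnected_iff_pathConnectedSpace.1 (isPathConnected_pathComponent (x := x0))
  have inv : ∀ p : pathComponent x0 × I, (F (p.1, p.2)).1 ∈ pathComponent x0 := fun p => by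
    have j1 : Joined ((F (x0, 0)).1) ((F (p.1, 0)).1) :=
      Joined.map (f := fun x => (F (x, 0)).1) p.1.2 (by fun_prop)
    have j2 := (joined_seg (γ := fun t : I => (F (p.1, t)).1) (by fun_prop) 0 p.2).joined
    have j3 := j1.trans j2
    rwa [show (F (x0, 0)).1 = x0 from h0] at j3
  have hN' : Young (pathComponent x0) := fun A hA hm => by
    obtain ⟨_, ⟨c, cc, ci, rfl⟩, hB⟩ := hN (fun n => Subtype.val '' A n)
      (fun n => by
        obtain ⟨c, cc, ci, e⟩ := hA n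
        exact ⟨Subtype.val ∘ c, continuous_subtype_val.comp cc, Subtype.val_injective.comp ci,
          by rw [range_comp, e]⟩) fun m n h => image_mono (hm h)
    obtain ⟨a, -, -, e⟩ := hA 0
    obtain ⟨s, hs⟩ := hB 0 ⟨a 0, e ▸ mem_range_self 0, rfl⟩
    have mem : ∀ t, c t ∈ pathComponent x0 := fun t =>
      Joined.trans (a 0).2 (hs ▸ (joined_seg cc s t).joined)
    refine ⟨_, ⟨fun t => ⟨c t, mem t⟩, cc.subtype_mk _, fun u v h => ci (congrArg Subtype.val h),
      rfl⟩, fun n y hy => ?_⟩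
    obtain ⟨t, ht⟩ := hB n ⟨y, hy, rfl⟩
    exact ⟨t, Subtype.ext ht⟩
  obtain ⟨p, hp⟩ := main (K := pathComponent x0)
    (F := fun p => (⟨_, inv p⟩, (F (p.1, p.2)).2)) hN'
    ((Continuous.subtype_mk (by fun_prop) _).prodMk (by fun_prop))
  exact ⟨(p.1, p.2), Prod.ext (congrArg (fun q : pathComponent x0 × I => (q.1 : K)) hp)
    (congrArg (fun q : pathComponent x0 × I => q.2) hp)⟩

end Pool.Agent.Lib.MP_3a0c72_gt.Nest
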