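import Mathlib

/-! Parity of a clopen part of the zero set of a real function. -/

set_option autoImplicit false

namespace Pool.Agent.Lib.MP_3a0c72_gt.Nest

open Set Filter Topology

section

variable {X Y : Type} [TopologicalSpace X] [TopologicalSpace Y]

open Classical in
noncomputable def sg (φ : X → ℝ) (p : X) : ZMod 2 := if 0 < φ p then 1 else 0

def Triv (φ : X → ℝ) (Z : Set X) (ε : X → ZMod 2) : Prop :=
  (∀ p ∉ Z, ∀ᶠ q in 𝓝 p, ε q = ε p) ∧
    ∀ p ∈ Z, ∀ᶠ q in 𝓝 p, ε q + sg φ q = ε p + sg φ p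

variable {φ : X → ℝ} {Z Z' : Set X} {ε ε' : X → ZMod 2}

theorem const_of_ev [PreconnectedSpace X] {ι : Type} {e : X → ι}
    (h : ∀ p, ∀ᶠ q in 𝓝 p, e q = e p) (a b : X) : e a = e b :=
  ((IsLocallyConstant.iff_eventually_eq e).2 h).apply_eq_of_preconnectedSpace a b

theorem Triv.unique [PreconnectedSpace X] (h : Triv φ Z ε) (h' : Triv φ Z ε') (a b : X) :
    ε a + ε b = ε' a + ε' b := by
  have key : ε a + ε' a = ε b + ε' b := by
    refine const_of_ev (e := fun p => ε p + ε' p) (fun p => ?_) a b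
    by_cases hp : p ∈ Z
    · filter_upwards [h.2 p hp, h'.2 p hp] with q h1 h2
      revert h1 h2
      generalize ε q = a1, ε' q = a2, ε p = a3, ε' p = a4, sg φ q = a5, sg φ p = a6
      revert a1 a2 a3 a4 a5 a6
      decide
    · filter_upwards [h.1 p hp, h'.1 p hp] with q h1 h2
      rw [h1, h2]
  revert key
  generalize ε a = a1, ε' a = a2, ε b = a3, ε' b = a4
  revert a1 a2 a3 a4
  decide

theorem Triv.add (hd : Disjoint Z Z') (h : Triv φ Z ε) (h' : Triv φ Z' ε') :
    Triv φ (Z ∪ Z') (fun p => ε p + ε' p) := by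
  refine ⟨fun p hp => ?_, fun p hp => ?_⟩
  · filter_upwards [h.1 p fun x => hp (Or.inl x), h'.1 p fun x => hp (Or.inr x)] with q h1 h2
    rw [h1, h2]
  · rcases hp with hp | hp
    · filter_upwards [h.2 p hp, h'.1 p (disjoint_left.1 hd hp)] with q h1 h2
      rw [h2, add_right_comm, h1, add_right_comm]
    · filter_upwards [h'.2 p hp, h.1 p (disjoint_right.1 hd hp)] with q h1 h2
      rw [h2, add_assoc, h1, add_assoc]

theorem Triv.full (hφ : Continuous φ) : Triv φ {p | φ p = 0} (sg φ) := by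
  refine ⟨fun p hp => ?_, fun p _ => Eventually.of_forall fun q => ?_⟩
  · rcases lt_or_gt_of_ne (show φ p ≠ 0 from hp) with h | h
    · filter_upwards [hφ.continuousAt.eventually (gt_mem_nhds h)] with q hq
      simp [sg, hq.not_gt, h.not_gt]
    · filter_upwards [hφ.continuousAt.eventually (lt_mem_nhds h)] with q hq
      simp [sg, hq, h]
  · rw [CharTwo.add_self_eq_zero, CharTwo.add_self_eq_zero]

theorem Triv.comp (h : Triv φ Z ε) {k : Y → X} (hk : Continuous k) :
    Triv (fun y => φ (k y)) (k ⁻¹' Z) (fun y => ε (k y)) :=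
  ⟨fun _ hp => hk.continuousAt.eventually (h.1 _ hp),
    fun _ hp => hk.continuousAt.eventually (h.2 _ hp)⟩

theorem closed_part (hφ : Continuous φ) {Q : X → Prop}
    (hQ : ∀ p, φ p = 0 → (∀ᶠ q in 𝓝 p, Q q) ∨ ∀ᶠ q in 𝓝 p, ¬ Q q) :
    IsClosed {p | φ p = 0 ∧ Q p} := by
  rw [← isOpen_compl_iff, isOpen_iff_eventually]
  intro p hp
  by_cases h0 : φ p = 0
  · rcases hQ p h0 with h | h
    · exact absurd ⟨h0, h.self_of_nhds⟩ hp
    · exact h.mono fun q hq hq' => hq hq'.2
  · exact (hφ.continuousAt.eventually_ne h0).mono fun q hq hq' => hq hq'.1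

theorem Triv.exists [NormalSpace X] [SimplyConnectedSpace X] [LocallyPathConnectedSpace X]
    (hφ : Continuous φ) {Q : X → Prop}
    (hQ : ∀ p, φ p = 0 → (∀ᶠ q in 𝓝 p, Q q) ∨ ∀ᶠ q in 𝓝 p, ¬ Q q) :
    ∃ ε, Triv φ {p | φ p = 0 ∧ Q p} ε := by
  classical
  have c1 := closed_part hφ hQ
  have c2 := closed_part hφ (Q := fun p => ¬ Q p)
    fun p hp => (hQ p hp).symm.imp id fun h => h.mono fun q hq => not_not.2 hq
  obtain ⟨u, u0, u1, -⟩ := exists_continuous_zero_one_of_isClosed c2 c1
    (disjoint_left.2 fun p h h' => h.2 h'.2)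
  obtain ⟨v, vc, hv⟩ := Complex.exists_continuousOn_pow_eq (X := X) (U := univ)
    ((Homeomorph.Set.univ X).toHomotopyEquiv.simplyConnectedSpace) isOpen_univ
    (g := fun p => ((u p - 1 / 2 : ℝ) : ℂ) + (φ p : ℂ) * Complex.I) (by fun_prop)
    (by
      rintro ⟨p, -, hp⟩
      have h1 : u p - 1 / 2 = 0 := by simpa using congrArg Complex.re hp
      have h2 : φ p = 0 := by simpa using congrArg Complex.im hp
      by_cases hq : Q p
      · have : u p = 1 := u1 ⟨h2, hq⟩
        linarith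
      · have : u p = 0 := u0 ⟨h2, hq⟩
        linarith) two_ne_zero
  have vc' : Continuous v := continuousOn_univ.1 vc
  have cr : Continuous fun p => (v p).re := by fun_prop
  have ci : Continuous fun p => (v p).im := by fun_prop
  have e1 : ∀ p, (v p).re * (v p).re - (v p).im * (v p).im = u p - 1 / 2 := fun p => by
    simpa [sq] using congrArg Complex.re (hv p)
  have e2 : ∀ p, 2 * ((v p).re * (v p).im) = φ p := fun p => by
    have := congrArg Complex.im (hv p)
    simp [sq] at this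
    linarith
  refine ⟨fun p => if 0 < (v p).im ∨ ((v p).im = 0 ∧ (v p).re < 0) then 1 else 0,
    fun p hp => ?_, fun p hp => ?_⟩
  · have : (v p).im ≠ 0 := fun h => by
      have h2 : φ p = 0 := by rw [← e2, h]; ring
      have : u p = 0 := u0 ⟨h2, fun hq => hp ⟨h2, hq⟩⟩
      have h3 := e1 p
      rw [h, this] at h3
      nlinarith [mul_self_nonneg (v p).re]
    rcases lt_or_gt_of_ne this with h | h
    · filter_upwards [ci.continuousAt.eventually (gt_mem_nhds h)] with q hq
      simp [hq.not_gt, h.not_gt, hq.ne, h.ne]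
    · filter_upwards [ci.continuousAt.eventually (lt_mem_nhds h)] with q hq
      simp [hq, h]
  · have : (v p).re ≠ 0 := fun h => by
      have : u p = 1 := u1 hp
      have h3 := e1 p
      rw [h, this] at h3
      nlinarith [mul_self_nonneg (v p).im]
    rcases lt_or_gt_of_ne this with h | h
    · have key : ∀ q, (v q).re < 0 →
          (if 0 < (v q).im ∨ ((v q).im = 0 ∧ (v q).re < 0) then (1 : ZMod 2) else 0) + sg φ q
            = 1 := fun q hq => by
        rcases lt_trichotomy (v q).im 0 with k | k | k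
        · have : 0 < φ q := by rw [← e2]; nlinarith
          simp [sg, this, k.not_gt, k.ne]
        · have : ¬ 0 < φ q := by rw [← e2, k]; simp
          simp [sg, this, k, hq]
        · have : ¬ 0 < φ q := by rw [← e2]; nlinarith
          simp [sg, this, k]
      filter_upwards [cr.continuousAt.eventually (gt_mem_nhds h)] with q hq
      rw [key q hq, key p h]
    · have key : ∀ q, 0 < (v q).re →
          (if 0 < (v q).im ∨ ((v q).im = 0 ∧ (v q).re < 0) then (1 : ZMod 2) else 0) + sg φ q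
            = 0 := fun q hq => by
        rcases lt_trichotomy (v q).im 0 with k | k | k
        · have : ¬ 0 < φ q := by rw [← e2]; nlinarith
          simp [sg, this, k.not_gt, k.ne]
        · have : ¬ 0 < φ q := by rw [← e2, k]; simp
          simp [sg, this, k, hq.not_gt]
        · have : 0 < φ q := by rw [← e2]; nlinarith
          simp only [sg, this, k, true_or, if_true]
          decide
      filter_upwards [cr.continuousAt.eventually (lt_mem_nhds h)] with q hq
      rw [key q hq, key p h]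

end

/-- The part `Z` of the zero set of `φ` has parity `e`. -/
def Par (φ : ℝ → ℝ) (Z : Set ℝ) (e : ZMod 2) : Prop := ∃ ε, Triv φ Z ε ∧ ε (-1) + ε 2 = e

variable {φ : ℝ → ℝ}

theorem Par.unique {Z : Set ℝ} {e e' : ZMod 2} (h : Par φ Z e) (h' : Par φ Z e') : e = e' := by
  obtain ⟨ε, h1, rfl⟩ := h
  obtain ⟨ε', h2, rfl⟩ := h'
  exact h1.unique h2 _ _

theorem Par.empty : Par φ ∅ 0 :=
  ⟨fun _ => 0, ⟨fun _ _ => Eventually.of_forall fun _ => rfl, fun _ h => h.elim⟩, add_zero _⟩

theorem Par.nonempty {Z : Set ℝ} (h : Par φ Z 1) : Z.Nonempty :=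
  nonempty_iff_ne_empty.2 fun e => by
    subst e
    exact absurd (h.unique Par.empty) (by decide)

theorem Par.full (hφ : Continuous φ) (h1 : 0 < φ (-1)) (h2 : φ 2 < 0) :
    Par φ {t | φ t = 0} 1 :=
  ⟨_, Triv.full hφ, by simp [sg, h1, h2.not_gt]⟩

/-- An odd union of classes contains an odd class. -/
theorem Par.exists_class {ι : Type} (hφ : Continuous φ) (hz : ∀ t, φ t = 0 → t ∈ Icc (0 : ℝ) 1)
    {c : ℝ → ι} (hc : ∀ t, φ t = 0 → ∀ᶠ q in 𝓝 t, c q = c t) {S : Set ι}
    (h : Par φ {t | φ t = 0 ∧ c t ∈ S} 1) : ∃ i ∈ S, Par φ {t | φ t = 0 ∧ c t = i} 1 := by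
  by_contra hn
  push Not at hn
  have hK : IsCompact {t | φ t = 0} :=
    isCompact_Icc.of_isClosed_subset (isClosed_eq hφ continuous_const) hz
  have hfin : (c '' {t | φ t = 0}).Finite := by
    obtain ⟨T, hT, hcov⟩ := hK.elim_nhds_subcover (fun t => {q | c q = c t}) hc
    refine (T.finite_toSet.image c).subset ?_
    rintro _ ⟨t, ht, rfl⟩
    obtain ⟨s, hs, e⟩ := mem_iUnion₂.1 (hcov ht)
    exact ⟨s, hs, e.symm⟩
  have key : ∀ T : Set ι, T.Finite → T ⊆ S → Par φ {t | φ t = 0 ∧ c t ∈ T} 0 := by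
    intro T hT
    induction T, hT using Set.Finite.induction_on with
    | empty => intro _; simpa using Par.empty
    | @insert i T hi _ ih =>
      intro hs
      obtain ⟨ε', t2, e2⟩ := ih ((subset_insert _ _).trans hs)
      obtain ⟨ε, t1⟩ := Triv.exists hφ (Q := fun t => c t = i) fun p hp => by
        by_cases e : c p = i
        · exact Or.inl ((hc p hp).mono fun q hq => hq.trans e)
        · exact Or.inr ((hc p hp).mono fun q hq => hq ▸ e)
      have e1 : ε (-1) + ε 2 = 0 := by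
        have : ε (-1) + ε 2 ≠ 1 := fun e => hn i (hs (mem_insert _ _)) ⟨ε, t1, e⟩
        revert this
        generalize ε (-1) + ε 2 = a
        revert a
        decide
      have := t1.add (disjoint_left.2 fun p (h : φ p = 0 ∧ c p = i) (h' : φ p = 0 ∧ c p ∈ T) =>
        hi (h.2 ▸ h'.2)) t2
      refine ⟨_, by convert this using 1; ext t; exact and_or_left, ?_⟩
      rw [add_add_add_comm, e1, e2, add_zero]
  have := key (S ∩ c '' {t | φ t = 0}) (hfin.subset inter_subset_right) inter_subset_left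
  have e : {t | φ t = 0 ∧ c t ∈ S ∩ c '' {t | φ t = 0}} = {t | φ t = 0 ∧ c t ∈ S} := by
    ext t
    exact ⟨fun h => ⟨h.1, h.2.1⟩, fun h => ⟨h.1, h.2, t, h.1, rfl⟩⟩
  rw [e] at this
  exact absurd (h.unique this) (by decide)

/-- Parity is constant in families. -/
theorem Par.family {Φ : ℝ × ℝ → ℝ} (hΦ : Continuous Φ)
    (hz : ∀ p, Φ p = 0 → p.2 ∈ Icc (0 : ℝ) 1) {Q : ℝ × ℝ → Prop}
    (hQ : ∀ p, Φ p = 0 → (∀ᶠ q in 𝓝 p, Q q) ∨ ∀ᶠ q in 𝓝 p, ¬ Q q) (a b : ℝ)
    (h : Par (fun t => Φ (a, t)) {t | Φ (a, t) = 0 ∧ Q (a, t)} 1) :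
    Par (fun t => Φ (b, t)) {t | Φ (b, t) = 0 ∧ Q (b, t)} 1 := by
  obtain ⟨ε, hε⟩ := Triv.exists hΦ hQ
  have k : ∀ t, t ∉ Icc (0 : ℝ) 1 → ε (a, t) = ε (b, t) := fun t ht =>
    const_of_ev (e := fun s => ε (s, t)) (fun s =>
      (Continuous.prodMk_left t).continuousAt.eventually (hε.1 (s, t) fun h => ht (hz _ h.1))) a b
  refine ⟨_, hε.comp (Continuous.prodMk_right b), ?_⟩
  rw [← k _ (by norm_num), ← k _ (by norm_num)]
  exact Par.unique ⟨_, hε.comp (Continuous.prodMk_right a), rfl⟩ h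

end Pool.Agent.Lib.MP_3a0c72_gt.Nest
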